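import Pool.Agent.Lib.MP_79af62_gt.BG.Asm
import Pool.Agent.Lib.MP_79af62_gt.BG.Data
import Pool.Agent.Lib.MP_79af62_gt.BG.Sum
import Pool.Agent.Lib.MP_79af62_gt.BG.Alg

set_option autoImplicit false

namespace Pool.Agent.Results.MP_79af62_gt.AffinePlank

open Pool.Agent.Lib.MP_79af62_gt.Glue

/-- The inequality with the widths replaced by differences of values at points of `C`. -/
theorem points {V : Type*} [AddCommGroup V] [Module ℝ V] {C : Set V} (hC : Convex ℝ C)
    (hne : C.Nonempty) {n : ℕ} (f : Fin n → V →ₗ[ℝ] ℝ) (a b : Fin n → ℝ) (hab : ∀ i, a i < b i)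
    (hcov : C ⊆ ⋃ i, {x | a i ≤ f i x ∧ f i x ≤ b i}) (z : Fin n × Bool → V) (hz : ∀ k, z k ∈ C)
    (hpq : ∀ i, f i (z (i, false)) < f i (z (i, true))) :
    1 ≤ ∑ i, (b i - a i) / (f i (z (i, true)) - f i (z (i, false))) := by
  obtain ⟨x0, hx0⟩ := hne
  have hn : 0 < n := by
    obtain ⟨j, -⟩ := Set.mem_iUnion.1 (hcov hx0)
    exact Fin.pos j
  have : Nonempty (Fin n) := ⟨⟨0, hn⟩⟩
  choose Q hi using fun i => Finite.exists_max fun k => f i (z k)
  choose P lo using fun i => Finite.exists_min fun k => f i (z k)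
  have hW : ∀ i, f i (z (i, true)) - f i (z (i, false)) ≤ f i (z (Q i)) - f i (z (P i)) :=
    fun i => sub_le_sub (hi i _) (lo i _)
  have hW0 : ∀ i, 0 < f i (z (Q i)) - f i (z (P i)) := fun i =>
    (sub_pos.2 (hpq i)).trans_le (hW i)
  have w0 : ∀ i, 0 < b i - a i := fun i => sub_pos.2 (hab i)
  let φ : V → Fin n → ℝ := fun x i => (2 * f i x - (a i + b i)) / (b i - a i)
  have hK : Convex ℝ (φ '' C) := by
    rintro _ ⟨x, hx, rfl⟩ _ ⟨y, hy, rfl⟩ s t hs ht hst
    refine ⟨s • x + t • y, hC hx hy hs ht hst, funext fun i => ?_⟩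
    have := w0 i
    simp only [φ, map_add, map_smul, Pi.add_apply, Pi.smul_apply, smul_eq_mul]
    obtain rfl : t = 1 - s := by linarith
    field_simp
    ring
  have hS : ∀ σ : Fin n → Bool, ∀ w ∈ φ '' C, ∃ j, sg (σ j) * w j ≤ 1 := by
    rintro σ _ ⟨x, hx, rfl⟩
    obtain ⟨j, h1, h2⟩ := Set.mem_iUnion.1 (hcov hx)
    refine ⟨j, ?_⟩
    simp only [φ]
    rw [← mul_div_assoc, div_le_one (w0 j)]
    cases σ j <;> simp only [sg, if_true, Bool.false_eq_true, if_false] <;> linarith
  choose y y0 ys hy using fun σ => sep hK ⟨_, x0, hx0, rfl⟩ σ (hS σ)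
  let X : Fin n → Bool → Fin n × Bool := fun j e => if e then Q j else P j
  have e : ∀ j, sg true * φ (z (X j true)) j + sg false * φ (z (X j false)) j =
      2 * (f j (z (Q j)) - f j (z (P j))) / (b j - a j) := by
    intro j
    simp only [φ, X, sg, if_true, Bool.false_eq_true, if_false]
    ring
  have key := core3
    (Pool.Agent.BG.core_of Pool.Agent.BG.data Pool.Agent.BG.sum Pool.Agent.BG.alg' n hn)
    (y := y) (h := fun j e => sg e * φ (z (X j e)) j) (x := fun j e => φ (z (X j e))) y0 ys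
    (fun j => by rw [e]; exact div_pos (mul_pos two_pos (hW0 j)) (w0 j)) (fun _ _ => rfl)
    (fun j e k d => by
      simp only [φ]
      rw [← mul_div_assoc, ← mul_div_assoc]
      refine div_le_div_of_nonneg_right ?_ (w0 k).le
      have h1 := lo k (X j e)
      have h2 := hi k (X j e)
      cases d <;> simp only [X, sg, if_true, Bool.false_eq_true, if_false] at h1 h2 ⊢ <;>
        linarith)
    (fun j c σ => hy σ _ ⟨_, hz _, rfl⟩)
  refine key.trans (Finset.sum_le_sum fun j _ => ?_)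
  have h1 := hW0 j
  have h2 := w0 j
  have h3 : 2 / (2 * (f j (z (Q j)) - f j (z (P j))) / (b j - a j)) =
      (b j - a j) / (f j (z (Q j)) - f j (z (P j))) := by field_simp
  rw [e, h3]
  exact div_le_div_of_nonneg_left h2.le (sub_pos.2 (hpq j)) (hW j)

/-- The affine plank theorem.  A nonempty convex set `C` in a real vector space is covered by
finitely many planks `a i ≤ f i x ≤ b i`; on `C` the linear functional `f i` has supremum `M i` and
infimum `m i < M i`.  Then the relative widths add up to at least one. -/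
theorem result (V : Type*) [AddCommGroup V] [Module ℝ V] (C : Set V) (hC : Convex ℝ C)
    (hne : C.Nonempty) (n : ℕ) (f : Fin n → V →ₗ[ℝ] ℝ) (a b m M : Fin n → ℝ)
    (hab : ∀ i, a i < b i) (hM : ∀ i, IsLUB (f i '' C) (M i)) (hm : ∀ i, IsGLB (f i '' C) (m i))
    (hmM : ∀ i, m i < M i) (hcov : C ⊆ ⋃ i, {x | a i ≤ f i x ∧ f i x ≤ b i}) :
    1 ≤ ∑ i, (b i - a i) / (M i - m i) := by
  refine le_of_forall_lt_imp_le_of_dense fun ρ hρ => ?_
  have W0 : ∀ i, 0 < M i - m i := fun i => sub_pos.2 (hmM i)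
  have w0 : ∀ i, 0 < b i - a i := fun i => sub_pos.2 (hab i)
  rcases le_or_gt ρ 0 with r0 | r0
  · exact r0.trans (Finset.sum_nonneg fun i _ => (div_pos (w0 i) (W0 i)).le)
  have d0 : ∀ i, 0 < (1 - ρ) * (M i - m i) / 2 := fun i =>
    half_pos (mul_pos (sub_pos.2 hρ) (W0 i))
  have h1 : ∀ i, ∃ p ∈ C, M i - (1 - ρ) * (M i - m i) / 2 < f i p := fun i => by
    obtain ⟨_, ⟨p, hp, rfl⟩, h, -⟩ := (hM i).exists_between (sub_lt_self _ (d0 i))
    exact ⟨p, hp, h⟩
  have h2 : ∀ i, ∃ q ∈ C, f i q < m i + (1 - ρ) * (M i - m i) / 2 := fun i => by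
    obtain ⟨_, ⟨q, hq, rfl⟩, -, h⟩ := (hm i).exists_between (lt_add_of_pos_right _ (d0 i))
    exact ⟨q, hq, h⟩
  choose p hp hp' using h1
  choose q hq hq' using h2
  have gap : ∀ i, ρ * (M i - m i) ≤ f i (p i) - f i (q i) := fun i => by
    linarith [hp' i, hq' i]
  have key := points hC hne f a b hab hcov (fun k => if k.2 then p k.1 else q k.1)
    (fun k => by
      split_ifs
      exacts [hp _, hq _])
    (fun i => by
      have := mul_pos r0 (W0 i)
      simp only [if_true, Bool.false_eq_true, if_false]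
      linarith [gap i])
  simp only [if_true, Bool.false_eq_true, if_false] at key
  have := mul_le_mul_of_nonneg_left key r0.le
  rw [mul_one, Finset.mul_sum] at this
  refine this.trans (Finset.sum_le_sum fun i _ => ?_)
  have h3 := div_le_div_of_nonneg_left (w0 i).le (mul_pos r0 (W0 i)) (gap i)
  refine (mul_le_mul_of_nonneg_left h3 r0.le).trans (le_of_eq ?_)
  have := W0 i
  field_simp

/-- The case of a convex body in Euclidean space follows from `result`. -/
theorem body (d n : ℕ) (C : Set (EuclideanSpace ℝ (Fin d))) (hcpt : IsCompact C)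
    (hcvx : Convex ℝ C) (hint : (interior C).Nonempty) (u : Fin n → EuclideanSpace ℝ (Fin d))
    (a b : Fin n → ℝ) (hu : ∀ i, u i ≠ 0) (hab : ∀ i, a i < b i)
    (hcov : C ⊆ ⋃ i, {x | a i ≤ inner ℝ (u i) x ∧ inner ℝ (u i) x ≤ b i}) :
    1 ≤ ∑ i, (b i - a i) /
      (sSup ((fun x => inner ℝ (u i) x) '' C) - sInf ((fun x => inner ℝ (u i) x) '' C)) := by
  obtain ⟨x0, hx0⟩ := hint
  obtain ⟨r, hr, hball⟩ := Metric.mem_nhds_iff.1 (mem_interior_iff_mem_nhds.1 hx0)
  have hx0C : x0 ∈ C := interior_subset hx0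
  have bd := fun i => hcpt.image_of_continuousOn
    (show ContinuousOn (fun x => inner ℝ (u i) x) C by fun_prop)
  have ne : ∀ i, ((fun x => inner ℝ (u i) x) '' C).Nonempty := fun i => ⟨_, x0, hx0C, rfl⟩
  refine result _ C hcvx ⟨x0, hx0C⟩ n (fun i => innerₗ _ (u i)) a b _ _ hab
    (fun i => isLUB_csSup (ne i) (bd i).bddAbove) (fun i => isGLB_csInf (ne i) (bd i).bddBelow)
    (fun i => ?_) hcov
  have hn : 0 < ‖u i‖ := norm_pos_iff.2 (hu i)
  have h1 : x0 + (r / 2 / ‖u i‖) • u i ∈ C := by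
    apply hball
    rw [Metric.mem_ball, dist_eq_norm, add_sub_cancel_left, norm_smul, Real.norm_eq_abs,
      abs_of_pos (by positivity), div_mul_cancel₀ _ hn.ne']
    linarith
  have h2 := le_csSup (bd i).bddAbove (Set.mem_image_of_mem _ h1)
  have h3 := csInf_le (bd i).bddBelow (Set.mem_image_of_mem _ hx0C)
  simp only [inner_add_right, inner_smul_right, real_inner_self_eq_norm_sq] at h2
  have h4 : 0 < r / 2 / ‖u i‖ * ‖u i‖ ^ 2 := by positivity
  linarith

end Pool.Agent.Results.MP_79af62_gt.AffinePlank
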